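import Pool.Agent.helper84.LP.SpecP

/-!
# MP_07c750 (quantum unique ergodicity, weight 10), PROJECT LQ (helper17): the L⁴ version of the lemma on few bad slopes of project LP (helper84); pure part, rows `lq:XXX`

THEOREM LQ: `F(h) + F(a) ≤ 1` whenever `h < 1` and `3a + h < 2` (for `a < 1/3` and ALL `h < 1`: the Liouville part has at least the mass of the part of entropy `< 1/3`). It replaces the rows BSP, BBC of `Pool/Agent/helper84/LP/SpecP.lean` (bad slopes `≤ N^(2(a+h-1)/(1-2a))`) by `≤ N^(3a+2h-2)`, for regular sets of slopes (last row QBB).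

`F_s(u) = ee(t mm X u) md X u` for `s = (X, t)`; `kk U X t = ∫_U F_s`. LEMMA (row QL4): for a set `S` of dimension `α = a + h ∈ [1, 3/2]` and `U` of dimension `h`, `Σ_S |kk|⁴ ≤ N^(2(h-1) + small)`. Proof: `kk² = ∫∫_(U × U) F_s(u) F_s(v)`; the pairs `(u, v)` at distance `~ θ`: duality and the Gram matrix
`Σ_(J, J') |<F_s, F_s'>_J| |<F_s, F_s'>_J'|` over pairs of dyadic intervals of length `θ` at distance `~ θ`: at most one of `J, J'` is near the zero of the derivative of the phase, so the entry is `≤ min(1/R, 1/(R^(3/2) θ))`, `R = dR` = the distance of `s, s'`; row sums `≤ θ^(-2(α-1))`.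

RULES. Row `lq:XXX` (problem MP_07c750_an): file `Pool/Agent/<seat>/LQ/XXX.lean`, `import Pool.Agent.helper17.LQ.SpecQ` (and what you need), `set_option autoImplicit false`, namespace `Pool.Agent.LP`, auxiliary lemmas prefixed `XXX_`, theorem `XXX_proof (h : YYY_stmt) .. : XXX_stmt` with the rows listed in `from` as hypotheses (unused ones dropped).
No straight double quotes, no `convert`, `congr!`, `native_decide`. A false or doubtful statement: message to helper17 at once.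
-/

open MeasureTheory Set

set_option autoImplicit false

namespace Pool.Agent.LP

noncomputable section

/-- the inner products on an interval -/
def ipj (X t X' t' x y : ℝ) : ℂ := ∫ u in Icc x y, ee (t * mm X u - t' * mm X' u) * ((md X u * md X' u : ℝ) : ℂ)

/-- the distance of the pairs `(X, t)`, `(X', t')` -/
def dR (N X t X' t' : ℝ) : ℝ := max 1 (max (N * |X - X'|) |t - t'|)

/-- the dyadic points of `[-2, 2]` -/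
def xk (n k : ℕ) : ℝ := -2 + 4 * (k : ℝ) / 2 ^ n

/-- the integral over a dyadic interval of length `4/2^n` -/
def kj (U : Set ℝ) (X t : ℝ) (n k : ℕ) : ℂ := ∫ u in U ∩ Icc (xk n k) (xk n (k + 1)), ee (t * mm X u) * (md X u : ℂ)

/-- pairs of dyadic intervals, not adjacent, with equal or adjacent parents (so `2 ≤ |k - l| ≤ 3`) -/
def PR (n : ℕ) : Finset (ℕ × ℕ) := (Finset.range (2 ^ n) ×ˢ Finset.range (2 ^ n)).filter fun z => z.1 / 2 ≤ z.2 / 2 + 1 ∧ z.2 / 2 ≤ z.1 / 2 + 1 ∧ (z.1 + 2 ≤ z.2 ∨ z.2 + 2 ≤ z.1)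

/-- equal or adjacent dyadic intervals -/
def PA (n : ℕ) : Finset (ℕ × ℕ) := (Finset.range (2 ^ n) ×ˢ Finset.range (2 ^ n)).filter fun z => z.1 ≤ z.2 + 1 ∧ z.2 ≤ z.1 + 1

/-- the Gram sum over the pairs of intervals -/
def gs (X t X' t' : ℝ) (n : ℕ) : ℝ := ∑ z ∈ PR n, ‖ipj X t X' t' (xk n z.1) (xk n (z.1 + 1))‖ * ‖ipj X t X' t' (xk n z.2) (xk n (z.2 + 1))‖

/-- a finite set of pairs `(X, t)` of dimension `α` -/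
def SQ (N K α : ℝ) (S : Finset (ℝ × ℝ)) : Prop := ∀ s ∈ S, ∀ R : ℝ, 1 ≤ R → ((S.filter fun s' : ℝ × ℝ => |s.1 - s'.1| ≤ R / N ∧ |s.2 - s'.2| ≤ R).card : ℝ) ≤ K * R ^ α

/-- a set of dimension `h` at all scales between `1/N` and `4` -/
def UQ (N K h : ℝ) (U : Set ℝ) : Prop := ∀ y r : ℝ, 1 / N ≤ r → r ≤ 4 → volume.real (U ∩ Icc y (y + r)) ≤ K * N ^ (h - 1) * r ^ h

/-- the same on the grid: words over the windows `[i m, G m]` -/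
def UGd (C h η : ℝ) (G m : ℕ) (U : Set ℝ) : Prop := ∀ i : ℕ, i ≤ G → ∀ y : ℝ, volume.real (U ∩ Icc y (y + Real.exp (-(i * m)))) ≤ C * Real.exp ((h + η - 1) * (((G : ℝ) - i) * m) - i * m)

/-- **Row QOS** (THE OSCILLATORY INTEGRAL ON INTERVALS; short-medium; from OSL; compare OSI). Both claims are symmetric (`ipj X t X' t' = conj (ipj X' t' X t)`): let `t ≥ t'`. `ρ = √(t'/t) ≤ 1`, `A = 1 - ρ`, `B = ρ X - X'`, `Δ = |X - X'|`, `Φ' = t (A + B u) k(u)` with `k(u) = ((1 - X'u) + ρ (1 - Xu))/((1 - Xu)² (1 - X'u)²)` as in OSI.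
`t A ≤ t - t' ≤ 2 t A`; `|B| ≤ Δ + A/16`, `|B| ≥ Δ - A/16`. First claim: the integrand is bounded. Third claim: if `dR = 1` let `u0 = 0` (then `d ≤ 2`). If `dR > 1` and `A ≥ 4Δ` let `u0 = 3` (so `d ≤ 5`): `|A + B u| ≥ (3/8) A`, OSL (1): `≤ C/(t A)`, and `t A ≥ (t - t')/2`, `t A ≥ 4 T0 Δ = 4 (T0/N) N Δ`, so `t A ≥ (T0/N) dR/2`.
If `dR > 1` and `A < 4Δ` let `u0 = -A/B`, `|B| ≥ (3/4)Δ > 0`, `|A + B u| = |B| |u - u0| ≥ (3/4) Δ d`, OSL (1) with `L = |B| d`: `≤ C/(t |B| d) ≤ (4/3) C/(T0 Δ d)`, and `t - t' ≤ 2 t A ≤ 8 C1 N Δ`, so `dR ≤ 8 C1 N Δ`. Second claim, from the first and the third: the part of `[x, y]` with `|u - u0| < dR^(-1/2)` is an interval of length `≤ 2 dR^(-1/2)`,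
the rest is at most two intervals with `d = dR^(-1/2)`. -/
def QOS_stmt : Prop := ∀ C1 : ℝ, 1 ≤ C1 → ∃ C : ℝ, 1 ≤ C ∧ ∀ X X' t t' T0 N : ℝ, |X| ≤ 1 / 16 → |X'| ≤ 1 / 16 → 1 ≤ T0 → T0 ≤ N → T0 ≤ t → t ≤ C1 * N → T0 ≤ t' → t' ≤ C1 * N →
  ∃ u0 : ℝ, ∀ x y : ℝ, -2 ≤ x → x ≤ y → y ≤ 2 → ‖ipj X t X' t' x y‖ ≤ C * (y - x) ∧ ‖ipj X t X' t' x y‖ * Real.sqrt (dR N X t X' t') ≤ C * (N / T0) ∧
    ∀ d : ℝ, 0 < d → (∀ u ∈ Icc x y, d ≤ |u - u0|) → ‖ipj X t X' t' x y‖ * (dR N X t X' t' * d) ≤ C * (N / T0)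

/-- **Row QGR** (THE ENTRIES OF THE GRAM MATRIX; medium; from QOS). `θ = 4/2^n`, `M = N/T0 ≥ 1`, `R = dR ≥ 1`, `q_k = ‖ipj‖` on `J_k = [xk n k, xk n (k+1)]`, `d_k = dist(J_k, u0)`: `q_k ≤ C θ`, `q_k ≤ C M/√R`, `q_k ≤ C M/(R d_k)`. For `(k, l) ∈ PR n`: `2 ≤ |k - l| ≤ 3`, so each `k` has at most `4` partners and `J_k, J_l` are at distance `≥ θ`: one of them has `d ≥ θ/2`.
Let `κ = (u0 + 2)/θ` (real). Pairs with `|k - κ| < 5` (at most `40`): `q_k q_l ≤ C θ · 2 C M/(R θ) = 2 C² M/R` and `≤ (C M/√R)(2 C M/(R θ))`. Pairs with `j ≤ |k - κ| < j + 1`, `j ≥ 5` (at most `8` for each `j`): `d_k, d_l ≥ θ (|k - κ| - 4) ≥ θ j/5`: `q_k q_l ≤ C² θ²` and `≤ 25 C² M²/(R² θ² j²)`; with `c = 25 M²` and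
`j1 = 5 M/(R θ²)`: `Σ_j min(θ², c/(R² θ² j²)) ≤ θ² j1 + (c/(R² θ²)) min(1, 2/j1) ≤ C' M/R`. This is the first claim. Second claim: if `R θ² ≤ 1` it follows from the first (`R √R θ ≤ R`); if `R θ² ≥ 1` the far part is `≤ Σ_j 8 c C²/(R² θ² j²) ≤ C' M²/(R² θ²) ≤ C' M²/(R √R θ)`. -/
def QGR_stmt : Prop := ∀ C1 : ℝ, 1 ≤ C1 → ∃ C : ℝ, 1 ≤ C ∧ ∀ (X X' t t' T0 N : ℝ) (n : ℕ), |X| ≤ 1 / 16 → |X'| ≤ 1 / 16 → 1 ≤ T0 → T0 ≤ N → T0 ≤ t → t ≤ C1 * N → T0 ≤ t' → t' ≤ C1 * N →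
  gs X t X' t' n * dR N X t X' t' ≤ C * (N / T0) ^ 2 ∧ gs X t X' t' n * (dR N X t X' t' * Real.sqrt (dR N X t X' t') * (4 / 2 ^ n)) ≤ C * (N / T0) ^ 2

/-- **Row QTL** (telescoping over the scales; short; pure algebra). Induction on `n`: `PA 0 = {(0, 0)}`. `Σ_(PA n) a n k * a n l = Σ` over the four pairs of children `(k', l')`; the children of the pairs of `PA n` are exactly `PA (n + 1) ∪ PR (n + 1)` (disjoint; `|k' - l'| ≤ 1` implies that the parents `k'/2, l'/2` are equal or adjacent). -/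
def QTL_stmt : Prop := ∀ a : ℕ → ℕ → ℂ, (∀ n k : ℕ, a n k = a (n + 1) (2 * k) + a (n + 1) (2 * k + 1)) →
  ∀ n : ℕ, (a 0 0) ^ 2 = ∑ j ∈ Finset.range n, ∑ z ∈ PR (j + 1), a (j + 1) z.1 * a (j + 1) z.2 + ∑ z ∈ PA n, a n z.1 * a n z.2

/-- **Row QKJ** (short; pure). `[xk 0 0, xk 0 1] = [-2, 2]`; `xk (n+1) (2k) = xk n k`, `xk (n+1) (2k+2) = xk n (k+1)`, the two halves have one common point. The integrand is bounded on `U ⊆ [-2, 2]` and continuous there. -/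
def QKJ_stmt : Prop := ∀ (U : Set ℝ) (X t : ℝ), MeasurableSet U → U ⊆ Icc (-2 : ℝ) 2 → |X| ≤ 1 / 16 →
  kj U X t 0 0 = kk U X t ∧ (∀ n k : ℕ, kj U X t n k = kj U X t (n + 1) (2 * k) + kj U X t (n + 1) (2 * k + 1)) ∧ ∀ n k : ℕ, ‖kj U X t n k‖ ≤ 2 * volume.real (U ∩ Icc (xk n k) (xk n (k + 1)))

/-- **Row QBM** (BOMBIERI'S INEQUALITY for the pairs; medium; pure). `z_s = Σ_(PR n) kj k * kj l`, `b_s = conj z_s`, `G(u, v) = Σ_s b_s F_s(u) F_s(v)`. `Z = Σ |z_s|² = Σ_(PR n) ∫_(U ∩ J_k) ∫_(U ∩ J_l) G ≤ (Σ_(PR n) |U ∩ J_k| |U ∩ J_l|)^(1/2) (Σ_(PR n) ∫_(J_k) ∫_(J_l) |G|²)^(1/2)` (Cauchy-Schwarz for the integrals and for the sum over the pairs), and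
`Σ_(PR n) ∫_(J_k) ∫_(J_l) |G|² = Σ_(s, s') b_s conj(b_s') Σ_(PR n) ipj_k ipj_l ≤ Σ_(s, s') |b_s| |b_s'| gs(s, s') ≤ Q Σ |b_s|² = Q Z` (Schur; `gs` is symmetric because `‖ipj X t X' t'‖ = ‖ipj X' t' X t‖`). So `Z ≤ A^(1/2) (Q Z)^(1/2)`. -/
def QBM_stmt : Prop := ∀ (U : Set ℝ) (S : Finset (ℝ × ℝ)) (n : ℕ) (Q : ℝ), MeasurableSet U → U ⊆ Icc (-2 : ℝ) 2 → (∀ s ∈ S, |s.1| ≤ 1 / 16) → 0 ≤ Q → (∀ s ∈ S, ∑ s' ∈ S, gs s.1 s.2 s'.1 s'.2 n ≤ Q) →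
  ∑ s ∈ S, ‖∑ z ∈ PR n, kj U s.1 s.2 n z.1 * kj U s.1 s.2 n z.2‖ ^ 2 ≤ Q * ∑ z ∈ PR n, volume.real (U ∩ Icc (xk n z.1) (xk n (z.1 + 1))) * volume.real (U ∩ Icc (xk n z.2) (xk n (z.2 + 1)))

/-- **Row QRS** (row sums over a set of dimension `α`; short-medium; pure). `2^j ≤ dR < 2^(j+1)`, `0 ≤ j`, `2^j ≤ C1 N`: at most `C (1 + log N)` values of `j`; at most `K 2^((j+1) α) ≤ 4 K 2^(j α)` elements `s'` (SQ with `R = 2^(j+1)`), each with `w ≤ min(2^(-j), 2^(-3j/2)/θ)`. For all `x > 0`: `min(x^(α-1), x^(α-3/2)/θ) ≤ θ^(-2(α-1))` (compare `x` with `θ^(-2)`; `1 ≤ α ≤ 3/2`). -/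
def QRS_stmt : Prop := ∀ C1 : ℝ, 1 ≤ C1 → ∃ C : ℝ, 1 ≤ C ∧ ∀ (N K α θ : ℝ) (S : Finset (ℝ × ℝ)) (w : ℝ × ℝ → ℝ), 1 ≤ N → 0 ≤ K → 1 ≤ α → α ≤ 3 / 2 → 0 < θ → SQ N K α S → ∀ s ∈ S,
  (∀ s' ∈ S, dR N s.1 s.2 s'.1 s'.2 ≤ C1 * N ∧ w s' * dR N s.1 s.2 s'.1 s'.2 ≤ 1 ∧ w s' * (dR N s.1 s.2 s'.1 s'.2 * Real.sqrt (dR N s.1 s.2 s'.1 s'.2) * θ) ≤ 1) →
    (∑ s' ∈ S, w s') * θ ^ (2 * (α - 1)) ≤ C * (1 + Real.log N) * K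

/-- **Row QL4** (THE L⁴ LEMMA; medium; from QGR, QTL, QKJ, QBM, QRS). `n` with `2^n ≤ 4N < 2^(n+1)`, so `1/N ≤ 4/2^n < 2/N` and `n ≤ C (1 + log N)`. `kk² = Σ_(j < n) z_(j+1) + near` (QTL, QKJ), `‖kk‖⁴ ≤ (n + 1)(Σ ‖z_j‖² + ‖near‖²)`. For `1 ≤ j ≤ n`, `θ = 4/2^j ∈ [1/N, 2]`: QBM with `Q = C M² C (1 + log N) K θ^(-2(α-1))` (QGR and QRS with `w = gs/(C M²)`; `dR ≤ max(1, N/8, C1 N)`),
and `Σ_(PR j) |U ∩ J_k| |U ∩ J_l| ≤ 4 (Σ_k |U ∩ J_k|) max_l |U ∩ J_l| ≤ 4 · 4 K' N^(h-1) · K' N^(h-1) θ^h` (UQ with `r = 4` and `r = θ`; each `k` has at most `4` partners). The product is `≤ C (1 + log N) M² K K'² N^(2(h-1)) θ^(h - 2(α-1))` and `θ ≤ 2`, the exponent is in `[0, 1]`. `‖near‖ ≤ 3 Σ_k ‖kj‖² ≤ 12 Σ_k |U ∩ J_k|² ≤ C K'² N^(2(h-1)) (2/N)^h`,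
so `Σ_S ‖near‖² ≤ #S C K'⁴ N^(2h - 4)`, `#S ≤ K (C1 N)^α` (SQ with `R = C1 N`; `S` empty: trivial), `α ≤ 3/2`. -/
def QL4_stmt : Prop := ∀ C1 : ℝ, 1 ≤ C1 → ∃ C : ℝ, 1 ≤ C ∧ ∀ (N T0 K K' α h : ℝ) (U : Set ℝ) (S : Finset (ℝ × ℝ)), 1 ≤ T0 → T0 ≤ N → 1 ≤ K → 1 ≤ K' → 0 ≤ h → h ≤ 1 → 1 ≤ α → α ≤ 3 / 2 → 2 * (α - 1) ≤ h → MeasurableSet U → U ⊆ Icc (-2 : ℝ) 2 →
  UQ N K' h U → SQ N K α S → (∀ s ∈ S, |s.1| ≤ 1 / 16 ∧ T0 ≤ s.2 ∧ s.2 ≤ C1 * N) → ∑ s ∈ S, ‖kk U s.1 s.2‖ ^ 4 ≤ C * (1 + Real.log N) ^ 3 * (N / T0) ^ 2 * K * K' ^ 4 * N ^ (2 * (h - 1))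

/-- **Row QBS** (FEW BAD SLOPES, L⁴ version; short-medium; from QL4). `T' X = (T X).image |·|`: at most `2 K2 R^a` elements in an interval of half length `R`, and `Σ_(T X) ‖kk‖ ≤ 2 Σ_(T' X) ‖kk‖` (`kk U X (-t) = conj (kk U X t)`). `S = {(X, t) : X ∈ XX, t ∈ T' X}`: SQ with `K = 2 K1 K2`, `α = a + h`. `(τ/2)⁴ ≤ (Σ_(T' X) ‖kk‖)⁴ ≤ (#T' X)³ Σ_(T' X) ‖kk‖⁴` (`Finset.inner_mul_le_norm_mul_norm` / `inner_le_Lp_mul_Lq`, or twice Cauchy-Schwarz),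
`#T' X ≤ 2 K2 (C1 N)^a` (`y = 0`, `R = C1 N`), `C1^(3a) ≤ C1^5`. Sum over `X ∈ XX` and QL4. -/
def QBS_stmt : Prop := ∀ C1 : ℝ, 1 ≤ C1 → ∃ C : ℝ, 1 ≤ C ∧ ∀ (a h N T0 τ K1 K2 K' : ℝ) (U : Set ℝ) (XX : Finset ℝ) (T : ℝ → Finset ℝ), 0 ≤ a → 0 ≤ h → h ≤ 1 → 1 ≤ a + h → a + h ≤ 3 / 2 → 2 * a + h ≤ 2 → 1 ≤ T0 → T0 ≤ N → 0 ≤ τ → 1 ≤ K1 → 1 ≤ K2 → 1 ≤ K' →
  MeasurableSet U → U ⊆ Icc (-2 : ℝ) 2 → UQ N K' h U → (∀ X ∈ XX, ∀ R : ℝ, 1 ≤ R → ((XX.filter fun X' => |X - X'| ≤ R / N).card : ℝ) ≤ K1 * R ^ h) →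
  (∀ X ∈ XX, |X| ≤ 1 / 16 ∧ (∀ y R : ℝ, 1 ≤ R → (((T X).filter fun t => |t - y| ≤ R).card : ℝ) ≤ K2 * R ^ a) ∧ ∀ t ∈ T X, T0 ≤ |t| ∧ |t| ≤ C1 * N) → (∀ X ∈ XX, τ ≤ ∑ t ∈ T X, ‖kk U X t‖) →
    (XX.card : ℝ) * τ ^ 4 ≤ C * (1 + Real.log N) ^ 3 * (N / T0) ^ 2 * K1 * K2 ^ 4 * K' ^ 4 * N ^ (3 * a + 2 * h - 2)

/-- **Row QUG** (from the grid to all scales, for `U`; short; pure). `N = e^(Gm)`. `1/N ≤ r ≤ 1`: let `i ≤ G` with `e^(-(i+1)m) < r ≤ e^(-im)`: `≤ C1 e^((h+η-1)(G-i)m - im) = C1 e^((h+η-1)Gm) (e^(-im))^(h+η) ≤ C1 N^(h+η-1) (r e^m)^(h+η) ≤ C1 e^m N^η N^(h-1) r^h`. `1 < r ≤ 4`: at most `4` intervals of length `1` (`i = 0`). -/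
def QUG_stmt : Prop := ∀ (C1 h η : ℝ) (G m : ℕ) (U : Set ℝ), 1 ≤ C1 → 0 ≤ h → 0 ≤ η → h + η ≤ 1 → 1 ≤ G → 1 ≤ m → UGd C1 h η G m U → UQ (Real.exp (G * m)) (5 * C1 * Real.exp (m + η * (G * m))) h U

/-- **Row QKG** (from the grid to all scales, for the slopes; short-medium; pure; compare RGG). `N = e^(Gm)`, `ξ = (b/4)/N`; the cells `[kξ, (k+1)ξ)` are disjoint, so `X` is injective on `K`. `|X k - X l| ≤ R/N` implies `|k - l| ≤ 4R/b + 1 ≤ R' = 5R/b`. If `R' ≤ N` let `i = ⌈log R'/m⌉ ≤ G`: AR with `y = k`: at most `C1 e^((h+η)im) ≤ C1 e^m R'^(h+η) ≤ C1 e^m (5/b) R^h N^η`. If `R' > N`: at most `#K ≤ (C1 + 1) C1 e^((h+η)Gm) ≤ C N^η R'^h`. -/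
def QKG_stmt : Prop := ∀ C1 b : ℝ, 1 ≤ C1 → 0 < b → b ≤ 1 → ∃ C : ℝ, 1 ≤ C ∧ ∀ (h η : ℝ) (G m : ℕ) (K : Finset ℤ) (X : ℤ → ℝ), 0 ≤ h → 0 ≤ η → h + η ≤ 1 → 1 ≤ G → 1 ≤ m → AR C1 h η G m K →
  (∀ k ∈ K, (k : ℝ) * (b / 4 * Real.exp (-(G * m))) ≤ X k ∧ X k < (k + 1) * (b / 4 * Real.exp (-(G * m)))) →
    (K.image X).card = K.card ∧ ∀ k ∈ K, ∀ R : ℝ, 1 ≤ R → (((K.image X).filter fun X' => |X k - X'| ≤ R / Real.exp (G * m)).card : ℝ) ≤ C * Real.exp (m + η * (G * m)) * R ^ h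

/-- **Row QBB** (FEW BAD CELLS, L⁴ version; medium; exponents; from QBS, RGG, QUG, QKG; compare BBC). `N = e^(Gm)`. For `k ∈ K` choose a bad `X k` of the cell, with its `D`, `c`, `d`; `T (X k) = {c (d' - d) : d' ∈ D, hG ≤ |d' - d|}`: RG (subset of the set in RGG, `x = d`) with `κ = 1/G + 3η/2`, `K2 = N^κ = e^(m + 3η Gm/2)`; `T0 = e^((G-1)m)/4 ≤ hG ≤ |t| ≤ 8 C1 N` (`m` large; `G ≥ 2`), `N/T0 = 4 e^m`; the sum over `T` is `> τ = e^(-m)`.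
`K1 = C e^(m + ηGm)` (QKG), `K' = 5 C1 e^(m + ηGm)` (QUG), `XX = K.image X`. QBS (`C1 := 8 C1`): `#K ≤ C e^(4m) (1 + Gm)³ 16 e^(2m) e^(m + ηGm) e^(4m + 6ηGm) e^(4m + 4ηGm) N^(3a + 2h - 2) ≤ C (1 + Gm)³ e^(15m) N^(11η) N^(3a + 2h - 2) ≤ e^(βGm)` for large `m`, since `3a + 2h - 2 + 12η + 24/G < β`. -/
def QBB_stmt : Prop := ∀ (C1 a η h β b : ℝ) (G : ℕ), 1 ≤ C1 → 0 ≤ a → 0 < η → a + η ≤ 1 → 0 ≤ h → h + η ≤ 1 → 1 ≤ a + h → a + h ≤ 3 / 2 → 2 * a + h ≤ 2 → 2 ≤ G → 0 < b → b ≤ 1 → 3 * a + 2 * h - 2 + 12 * η + 24 / (G : ℝ) < β → ∃ m0 : ℕ, ∀ (m : ℕ) (U : Set ℝ) (K : Finset ℤ), m0 ≤ m →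
  MeasurableSet U → U ⊆ Icc (-2 : ℝ) 2 → UGd C1 h η G m U → AR C1 h η G m K →
  (∀ k ∈ K, ∃ X : ℝ, (k : ℝ) * (b / 4 * Real.exp (-(G * m))) ≤ X ∧ X < (k + 1) * (b / 4 * Real.exp (-(G * m))) ∧ |X| ≤ 1 / 16 ∧ ¬ GD U C1 a η G m X) → (K.card : ℝ) ≤ Real.exp (β * (G * m))

end

end Pool.Agent.LP
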