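import Pool.Agent.helper17.LQ.SpecQ

/-!
# MP_07c750, PROJECT LQ, second part of the pure part: the interface `BBQ_stmt` for the geometry (helper84), and the version for arbitrary `U` (helper98): rows `lq:QBH`, `lq:QL5`, `lq:QB5`, `lq:BB5`

RULES as in `SpecQ` (import `Pool.Agent.helper17.LQ.SpecQ2`).
-/

open MeasureTheory Set

set_option autoImplicit false

namespace Pool.Agent.LP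

noncomputable section

/-- **Row QBH** (the interface for the geometry; short; from QBB). `C1' = max C1 (4/b)`: `GD` is monotone: `¬ GD U C1` gives `¬ GD U C1'` (AR is monotone in `C`). `UGd C1' h η G m U`: `(h + η)(G - i)m - Gm = (h + η - 1)(G - i)m - im`. `AR C1' h η G m K`: `|k| ξ ≤ 1/16 + ξ`, `ξ = b/4 e^(-Gm) ≤ 1/4`, so `|k| ≤ (1/(4b)) e^(Gm) + 1`; `|k - y| ≤ e^(im)` implies `|k ξ - y ξ| ≤ (b/4) e^(-(G-i)m) ≤ e^(-(G-i)m)`.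
`a + h ≤ 3/2` and `2a + h ≤ 2` follow from `3a + h < 2`, `h ≤ 1`. -/
def BBQ_stmt : Prop := ∀ (C1 a η h β b : ℝ) (G : ℕ), 1 ≤ C1 → 0 ≤ a → 0 < η → a + η ≤ 1 → 0 ≤ h → h + η ≤ 1 → 1 ≤ a + h → 2 ≤ G → 0 < b → b ≤ 1 → 3 * a + 2 * h - 2 + 40 * (η + 1 / (G : ℝ)) < β → 3 * a + h < 2 → ∃ m0 : ℕ, ∀ (m : ℕ) (U : Set ℝ) (K : Finset ℤ), m0 ≤ m →
  MeasurableSet U → U ⊆ Icc (-2 : ℝ) 2 → (∀ i : ℕ, i ≤ G → ∀ y : ℝ, volume.real (U ∩ Icc y (y + Real.exp (-(i * m)))) ≤ C1 * Real.exp ((h + η) * (((G : ℝ) - i) * m) - G * m)) →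
  (∀ i : ℕ, i ≤ G → ∀ y : ℝ, ((K.filter fun k : ℤ => |(k : ℝ) * (b / 4 * Real.exp (-(G * m))) - y| ≤ Real.exp (-(i * m))).card : ℝ) ≤ C1 * Real.exp ((h + η) * (((G : ℝ) - i) * m))) →
  (∀ k ∈ K, ∃ X : ℝ, (k : ℝ) * (b / 4 * Real.exp (-(G * m))) ≤ X ∧ X < (k + 1) * (b / 4 * Real.exp (-(G * m))) ∧ |X| ≤ 1 / 16 ∧ ¬ GD U C1 a η G m X) → (K.card : ℝ) ≤ Real.exp (β * (G * m))

/-- **Row QL5** (THE L⁴ LEMMA FOR ARBITRARY `U`; medium; from QGR, QTL, QKJ, QBM, QRS; the proof of QL4). The only change: `Σ_(PR j) |U ∩ J_k| |U ∩ J_l| ≤ 4 (Σ_k |U ∩ J_k|) θ ≤ 8 δ θ`, so the level `θ` gives `C (1 + log N) M² K δ θ^(1 - 2(α-1))`, `1 - 2(α - 1) ≥ 0`, `θ ≤ 2`. `‖near‖ ≤ 12 Σ_k |U ∩ J_k|² ≤ C δ/N`, `#S ≤ K (C1 N)^(3/2)`, `(volume.real U)² ≤ 4 δ`. -/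
def QL5_stmt : Prop := ∀ C1 : ℝ, 1 ≤ C1 → ∃ C : ℝ, 1 ≤ C ∧ ∀ (N T0 K α δ : ℝ) (U : Set ℝ) (S : Finset (ℝ × ℝ)), 1 ≤ T0 → T0 ≤ N → 1 ≤ K → 1 ≤ α → α ≤ 3 / 2 → MeasurableSet U → U ⊆ Icc (-2 : ℝ) 2 → volume.real U ≤ δ →
  SQ N K α S → (∀ s ∈ S, |s.1| ≤ 1 / 16 ∧ T0 ≤ s.2 ∧ s.2 ≤ C1 * N) → ∑ s ∈ S, ‖kk U s.1 s.2‖ ^ 4 ≤ C * (1 + Real.log N) ^ 3 * (N / T0) ^ 2 * K * δ

/-- **Row QB5** (few bad slopes, L⁴ version, arbitrary `U`; short-medium; from QL5; compare QBS). `T' X = (T X).image |·|`: at most `2 N^κ R^a` elements in an interval of half length `R`; at most `2R + 1 ≤ 3R` elements of `XX` in an interval of half length `R/N`; `S = {(X, t) : X ∈ XX, t ∈ T' X}`: SQ with `K = 6 N^κ`, `α = 1 + a`. `(τ/2)⁴ ≤ (#T' X)³ Σ_(T' X) ‖kk‖⁴`, `#T' X ≤ 2 N^κ (C1 N)^a`. -/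
def QB5_stmt : Prop := ∀ C1 : ℝ, 1 ≤ C1 → ∃ C : ℝ, 1 ≤ C ∧ ∀ (a κ N T0 τ δ : ℝ) (U : Set ℝ) (XX : Finset ℝ) (T : ℝ → Finset ℝ), 0 ≤ a → a ≤ 1 / 2 → 0 ≤ κ → 1 ≤ T0 → T0 ≤ N → 0 ≤ τ → MeasurableSet U → U ⊆ Icc (-2 : ℝ) 2 → volume.real U ≤ δ →
  (∀ X ∈ XX, |X| ≤ 1 / 16 ∧ RG N κ a (T X) ∧ ∀ t ∈ T X, T0 ≤ |t| ∧ |t| ≤ C1 * N) → (∀ X ∈ XX, ∀ X' ∈ XX, X ≠ X' → 1 ≤ N * |X - X'|) → (∀ X ∈ XX, τ ≤ ∑ t ∈ T X, ‖kk U X t‖) →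
    (XX.card : ℝ) * τ ^ 4 ≤ C * (1 + Real.log N) ^ 3 * (N / T0) ^ 2 * N ^ (3 * a + 4 * κ) * δ

/-- **Row BB5** (few bad cells, L⁴ version, arbitrary `U`; medium; exponents; from QB5, RGG; the proof of BBC (helper16/LP/BBC.lean) with QB5 in place of BSP). The exponent: `n ≤ e^(4m) C (1 + Gm)³ 16 e^(2m) e^(4m + 6ηGm) e^(3a Gm) C1 e^((h + η - 1)Gm)`, `3a + h - 1 + 7η + 11/G`. -/
def BB5_stmt : Prop := ∀ (C1 a η h β b : ℝ) (G : ℕ), 1 ≤ C1 → 0 ≤ a → a < 1 / 2 → 0 < η → a + η ≤ 1 → 2 ≤ G → 0 < b → b ≤ 1 → 3 * a + h - 1 + 8 * η + 24 / (G : ℝ) < β → ∃ m0 : ℕ, ∀ (m : ℕ) (U : Set ℝ) (K : Finset ℤ), m0 ≤ m →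
  MeasurableSet U → U ⊆ Icc (-2 : ℝ) 2 → volume.real U ≤ C1 * Real.exp ((h + η - 1) * (G * m)) →
  (∀ k ∈ K, ∃ X : ℝ, (k : ℝ) * (b / 4 * Real.exp (-(G * m))) ≤ X ∧ X < (k + 1) * (b / 4 * Real.exp (-(G * m))) ∧ |X| ≤ 1 / 16 ∧ ¬ GD U C1 a η G m X) → (K.card : ℝ) ≤ Real.exp (β * (G * m))

end

end Pool.Agent.LP
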